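import Pool.Agent.helper9.HQ.Spec

/-!
# Project hq (MP_d9e35a_co), row IND: Lemma W by induction on the number of classes
-/

set_option autoImplicit false

open scoped Classical

namespace Pool.Agent.helper9.HQ

open Finset
open Pool.Agent.helper65.HC (V IsEig IsTop lam)

theorem IND_NN_abs {n : ℕ} (x a : Fin n → ℝ) : NN x (fun i => |a i|) = NN x a := by
  unfold NN
  refine Finset.sum_congr rfl fun i _ => ?_
  dsimp only
  rw [sq_abs]

theorem IND_Phi_abs {n : ℕ} (W : Fin n → Fin n → Prop) (x a : Fin n → ℝ) (hx : ∀ i, 0 ≤ x i) :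
    Phi W x a ≤ Phi W x (fun i => |a i|) := by
  unfold Phi
  refine add_le_add ?_ ?_
  · rw [sq_le_sq]
    have h1 : |∑ i, x i * a i| ≤ ∑ i, x i * |a i| := by
      refine (Finset.abs_sum_le_sum_abs _ _).trans (le_of_eq ?_)
      refine Finset.sum_congr rfl fun i _ => ?_
      rw [abs_mul, abs_of_nonneg (hx i)]
    exact h1.trans (le_abs_self _)
  · refine mul_le_mul_of_nonneg_left ?_ (by norm_num)
    refine Finset.sum_le_sum fun i _ => Finset.sum_le_sum fun j _ => ?_
    split_ifs
    · refine mul_le_mul_of_nonneg_left ?_ (mul_nonneg (hx i) (hx j))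
      dsimp only
      rw [sq_le_sq, abs_of_nonneg (add_nonneg (abs_nonneg (a i)) (abs_nonneg (a j)))]
      exact abs_add_le _ _
    · exact le_rfl

theorem IND_ar {n : ℕ} (W : Fin n → Fin n → Prop) (x : Fin n → ℝ) (hx : Spl x) :
    0 ≤ ar W x ∧ ar W x ≤ 1 := by
  constructor
  · unfold ar
    refine Finset.sum_nonneg fun i _ => Finset.sum_nonneg fun j _ => ?_
    split_ifs
    · exact mul_nonneg (hx.1 i) (hx.1 j)
    · exact le_rfl
  · have h1 : (∑ i, x i) * ∑ j, x j = 1 := by rw [hx.2, one_mul]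
    rw [← h1, Finset.sum_mul_sum]
    unfold ar
    refine Finset.sum_le_sum fun i _ => Finset.sum_le_sum fun j _ => ?_
    split_ifs
    · exact le_rfl
    · exact mul_nonneg (hx.1 i) (hx.1 j)

theorem IND_NN_nonneg {n : ℕ} (x a : Fin n → ℝ) (hx : ∀ i, 0 ≤ x i) : 0 ≤ NN x a :=
  Finset.sum_nonneg fun i _ => mul_nonneg (hx i) (sq_nonneg _)

/-- turning sums over `Fin n` into sums over `range` -/
theorem IND_sum {n T : ℕ} (hT : T ≤ n) (F : ℕ → ℝ) (i : Fin n) :
    (∑ j : Fin n, if Wt n T i j then F j else 0) = ∑ j ∈ range (T - (i : ℕ)), F j := by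
  have h1 : (∑ j : Fin n, if Wt n T i j then F j else 0) =
      ∑ j : Fin n, (fun j : ℕ => if (i : ℕ) + j < T then F j else 0) (j : ℕ) := by
    refine Finset.sum_congr rfl fun j _ => ?_
    unfold Wt
    dsimp only
    by_cases h : (i : ℕ) + (j : ℕ) < T
    · rw [if_pos h, if_pos h]
    · rw [if_neg h, if_neg h]
  rw [h1, Fin.sum_univ_eq_sum_range (fun j : ℕ => if (i : ℕ) + j < T then F j else 0) n]
  have h2 : range (T - (i : ℕ)) ⊆ range n := by
    intro j hj
    rw [mem_range] at hj ⊢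
    omega
  rw [← Finset.sum_subset h2 (fun j _ hj => by
    rw [mem_range] at hj
    rw [if_neg (by omega)])]
  refine Finset.sum_congr rfl fun j hj => ?_
  rw [mem_range] at hj
  rw [if_pos (by omega)]

/-- extension by zero -/
def IND_ext {n : ℕ} (x : Fin n → ℝ) (i : ℕ) : ℝ := if h : i < n then x ⟨i, h⟩ else 0

theorem IND_ext_val {n : ℕ} (x : Fin n → ℝ) (i : Fin n) : IND_ext x (i : ℕ) = x i := by
  unfold IND_ext
  rw [dif_pos i.2]

theorem IND_ext_lt {n : ℕ} (x : Fin n → ℝ) {i : ℕ} (h : i < n) : IND_ext x i = x ⟨i, h⟩ := by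
  unfold IND_ext
  rw [dif_pos h]

theorem IND_arc {n T : ℕ} (hT : T ≤ n) (x : Fin n → ℝ) : arc n T (IND_ext x) = ar (Wt n T) x := by
  unfold arc ar
  rw [← Fin.sum_univ_eq_sum_range (fun i => IND_ext x i * ∑ j ∈ range (T - i), IND_ext x j) n]
  refine Finset.sum_congr rfl fun i _ => ?_
  rw [← IND_sum hT (IND_ext x) i, IND_ext_val, Finset.mul_sum]
  refine Finset.sum_congr rfl fun j _ => ?_
  rw [IND_ext_val]
  split_ifs
  · rfl
  · rw [mul_zero]

/-- the critical point -/
theorem IND_Cr {n T : ℕ} (hT : T ≤ n) {x a : Fin n → ℝ} {l nu M : ℝ} (hx : ∀ i, 0 < x i)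
    (hs : ∑ i, x i = 1) (ha : ∀ i, 0 < a i) (hl : 1 < l)
    (h1 : ∀ i, l * a i = ∑ j, x j * a j + ∑ j, if Wt n T i j then x j * (a i + a j) else 0)
    (h2 : ∀ i, (l - ∑ j, if Wt n T i j then x j else 0) * a i ^ 2 +
      (∑ j, if Wt n T i j then x j * a j ^ 2 else 0) = nu + M * ∑ j, if Wt n T i j then x j else 0) :
    Cr n T (IND_ext x) (IND_ext a) l nu M := by
  have s1 : ∀ i : Fin n, (∑ j, if Wt n T i j then x j else 0) =
      ∑ j ∈ range (T - (i : ℕ)), IND_ext x j := by
    intro i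
    rw [← IND_sum hT (IND_ext x) i]
    refine Finset.sum_congr rfl fun j _ => ?_
    rw [IND_ext_val]
  have s2 : ∀ i : Fin n, (∑ j, if Wt n T i j then x j * a j ^ 2 else 0) =
      ∑ j ∈ range (T - (i : ℕ)), IND_ext x j * IND_ext a j ^ 2 := by
    intro i
    rw [← IND_sum hT (fun j => IND_ext x j * IND_ext a j ^ 2) i]
    refine Finset.sum_congr rfl fun j _ => ?_
    rw [IND_ext_val, IND_ext_val]
  have s3 : ∀ i : Fin n, (∑ j, if Wt n T i j then x j * (a i + a j) else 0) =
      ∑ j ∈ range (T - (i : ℕ)), IND_ext x j * (a i + IND_ext a j) := by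
    intro i
    rw [← IND_sum hT (fun j => IND_ext x j * (a i + IND_ext a j)) i]
    refine Finset.sum_congr rfl fun j _ => ?_
    rw [IND_ext_val, IND_ext_val]
  refine ⟨?_, ?_, ?_, hl, ?_, ?_⟩
  · intro i hi
    rw [IND_ext_lt x hi]
    exact hx _
  · intro i hi
    rw [IND_ext_lt a hi]
    exact ha _
  · rw [← Fin.sum_univ_eq_sum_range (fun i => IND_ext x i) n, ← hs]
    exact Finset.sum_congr rfl fun i _ => IND_ext_val x i
  · intro i hi
    have e := h1 ⟨i, hi⟩
    rw [s3] at e
    rw [IND_ext_lt a hi, e]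
    congr 1
    rw [← Fin.sum_univ_eq_sum_range (fun j => IND_ext x j * IND_ext a j) n]
    refine Finset.sum_congr rfl fun j _ => ?_
    rw [IND_ext_val, IND_ext_val]
  · intro i hi
    have e := h2 ⟨i, hi⟩
    rw [s1, s2] at e
    rw [IND_ext_lt a hi]
    exact e

/-- the two cases of the last step -/
theorem IND_last (hKA1 : KA1_stmt) (hKA2 : KA2_stmt) (hKB1 : KB1_stmt) (hKB2 : KB2_stmt) (hFA : FA_stmt)
    (hFB : FB_stmt) {n T : ℕ} (hn : 3 ≤ n) (hT : T = n ∨ T = n - 1) {x a : Fin n → ℝ} {l nu M : ℝ}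
    (hx : Spl x) (hl : 1 < l) (hC : Cr n T (IND_ext x) (IND_ext a) l nu M) : l ≤ c (ar (Wt n T) x) := by
  have har := IND_ar (Wt n T) x hx
  have hTn : T ≤ n := by omega
  rw [← IND_arc hTn x] at har ⊢
  rcases hT with rfl | rfl
  · obtain ⟨q, ta, hq0, hq1, hta, c1, c2, c3⟩ := hKA1 T _ _ l nu M hn hC
    obtain ⟨u, hu, d1, d2⟩ := hKA2 T _ _ l nu M q ta hn hC hq0 hq1 hta c1 c2 c3
    exact (hFA T u l _ (by omega) hu d1 d2 har.2).trans (le_max_left _ _)
  · obtain ⟨q, ta, hq0, hq1, hta, c1, c2, c3⟩ := hKB1 n _ _ l nu M hn hC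
    obtain ⟨u, hu, d1, d2⟩ := hKB2 n _ _ l nu M q ta hn hC hq0 hq1 hta c1 c2 c3
    exact (hFB n u l _ (by omega) hu hl d1 d2 har.2).trans (le_max_right _ _)

theorem IND (hTW : TW_stmt) (hDL : DL_stmt) (hTYP : TYP_stmt) (hBAS : BAS_stmt) (hMX : MX_stmt)
    (hK1 : K1_stmt) (hK2 : K2_stmt) (hKA1 : KA1_stmt) (hKA2 : KA2_stmt) (hKB1 : KB1_stmt)
    (hKB2 : KB2_stmt) (hFA : FA_stmt) (hFB : FB_stmt) (hCM : CM_stmt) : LW_stmt := by
  obtain ⟨-, -, hmono, hc1⟩ := hCM
  intro n
  induction n with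
  | zero =>
    intro W x a hW hx
    exfalso
    have := hx.2
    simp at this
  | succ n ih =>
    intro W x₀ a₀ hW hx₀
    by_cases htw : ∃ i : Fin n, ∀ j, W i.castSucc j ↔ W i.succ j
    · obtain ⟨i, hi⟩ := htw
      obtain ⟨W', x', a', h1, h2, h3, h4, h5, h6, h7⟩ :=
        hTW n W x₀ (fun i => |a₀ i|) i hW hx₀.1 (fun j => abs_nonneg _) hi
      have h8 := ih W' x' a' h1 ⟨h2, h4.trans hx₀.2⟩
      rw [h5, h6, IND_NN_abs] at h8
      exact (IND_Phi_abs W x₀ a₀ hx₀.1).trans (h7.trans h8)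
    · have htw' : ∀ i : Fin n, ¬ ∀ j, W i.castSucc j ↔ W i.succ j := fun i hi => htw ⟨i, hi⟩
      obtain ⟨T, hT, rfl⟩ : ∃ T : ℕ, (T = n + 1 ∨ T = n) ∧ W = Wt (n + 1) T := by
        rcases hTYP n W hW htw' with h | h
        · exact ⟨n + 1, Or.inl rfl, funext fun i => funext fun j => propext (h i j)⟩
        · exact ⟨n, Or.inr rfl, funext fun i => funext fun j => propext (h i j)⟩
      have hTn : T ≤ n + 1 := by omega
      rcases Nat.lt_or_ge n 2 with hn | hn
      · -- one or two classes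
        interval_cases n
        · exact hBAS.1 T x₀ a₀ (by omega) hx₀
        · exact hBAS.2 T x₀ a₀ (by omega) (by omega) hx₀
      · by_contra hcon
        rw [not_le] at hcon
        set W : Fin (n + 1) → Fin (n + 1) → Prop := Wt (n + 1) T with hWdef
        have hal := IND_ar W x₀ hx₀
        have hNN0 := IND_NN_nonneg x₀ a₀ hx₀.1
        have hc := hc1 (ar W x₀) hal.1 hal.2
        have hlt : NN x₀ a₀ < Phi W x₀ a₀ := by
          refine lt_of_le_of_lt ?_ hcon
          nlinarith [hc.1]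
        obtain ⟨x, a, l, hx, harx, ha, hNN, hPhi, hl, hmax⟩ :=
          hMX (n + 1) W (ar W x₀) hW.symm ⟨x₀, a₀, hx₀, le_rfl, hlt⟩
        have hlc : c (ar W x₀) < l := by
          have h1 := hmax x₀ a₀ hx₀ le_rfl
          by_contra h2
          rw [not_lt] at h2
          have h3 : l * NN x₀ a₀ ≤ c (ar W x₀) * NN x₀ a₀ := mul_le_mul_of_nonneg_right h2 hNN0
          linarith
        have har := IND_ar W x hx
        have hfin : l ≤ c (ar W x) → False := by
          intro h
          have := hmono (ar W x) (ar W x₀) har.1 harx hal.2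
          linarith
        by_cases hz : ∃ i, x i = 0
        · obtain ⟨i, hi⟩ := hz
          obtain ⟨W', x', a', h1, h2, h3, h4, h5, h6⟩ := hDL n W x a i hW hx.1 hi
          have h7 := ih W' x' a' h1 ⟨h2, h3.trans hx.2⟩
          rw [h4, h5, hNN, mul_one, ← h6, hPhi] at h7
          exact hfin h7
        · have hxp : ∀ i, 0 < x i := fun i => lt_of_le_of_ne (hx.1 i) (fun h => hz ⟨i, h.symm⟩)
          obtain ⟨e1, hap⟩ := hK1 (n + 1) W x a l hW.symm hxp ha hNN hPhi (by linarith)
            (fun a' => hmax x a' hx harx)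
          have hde : ∃ i j, (∑ k, if W i k then x k else 0) ≠ ∑ k, if W j k then x k else 0 := by
            refine ⟨0, Fin.last n, ?_⟩
            have s1 : ∀ i : Fin (n + 1), (∑ j, if Wt (n + 1) T i j then x j else 0) =
                ∑ j ∈ range (T - (i : ℕ)), IND_ext x j := by
              intro i
              rw [← IND_sum hTn (IND_ext x) i]
              refine Finset.sum_congr rfl fun j _ => ?_
              rw [IND_ext_val]
            rw [hWdef, s1, s1, Fin.val_zero, Fin.val_last, Nat.sub_zero]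
            refine (ne_of_lt ?_).symm
            have hsub : range (T - n) ⊆ range T := by
              intro j hj
              rw [mem_range] at hj ⊢
              omega
            refine Finset.sum_lt_sum_of_subset hsub (i := T - n) ?_ ?_ ?_ ?_
            · rw [mem_range]; omega
            · rw [mem_range]; omega
            · rw [IND_ext_lt x (by omega)]
              exact hxp _
            · intro j hj _
              rw [mem_range] at hj
              rw [IND_ext_lt x (by omega)]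
              exact (hxp _).le
          obtain ⟨nu, M, e2⟩ := hK2 (n + 1) W x a l (ar W x₀) hW.symm hxp hx.2 harx
            (by rw [hPhi, hNN, mul_one]) e1 hmax hde
          have hC : Cr (n + 1) T (IND_ext x) (IND_ext a) l nu M :=
            IND_Cr hTn hxp hx.2 hap hl e1 e2
          exact hfin (IND_last hKA1 hKA2 hKB1 hKB2 hFA hFB (by omega) (by omega) hx hl hC)

end Pool.Agent.helper9.HQ
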